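import Mathlib
import Pool.Agent.V1168.UN.Diag

/-!
# The conjectures of Beilinson and of semisimplicity for products with abelian varieties of almost all
slope types of all CM fields

Let `K i` (`i` in a finite set) be CM fields of degree `2 g i`. Nothing is assumed about their Galois
groups. They are pairwise independent: for `i ≠ k` and all complex embeddings `φ` of `K i` and `ψ` of
`K k` some automorphism of `ℂ` is the identity on `φ (K i)` and the complex conjugation on `ψ (K k)`
(this is no condition if there is only one field). We fix an isomorphism `ν` of the algebraic closure
of `ℚ_p` with `ℂ`; it defines a `p`-adic valuation of `ℂ`, with the value one at `p`. Let `M i` be a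
function with nonzero integral values, all of which divide `n i`, on the complex embeddings of
`K i`, invariant under complex conjugation. A CM type `Φ i` of `K i` (a choice of one element out of
each complex conjugate pair of embeddings; there are `2 ^ (g i)` types), `M i` and a real number
`κ ≠ 0` prescribe the slopes `(a + κ M) / 2` (at the embeddings in `Φ i`) and `(a - κ M) / 2` (outside
of `Φ i`) of a Weil number for `p ^ a` in `K i` (`HasType`). If `p` splits completely in `K i` then,
by Honda and Tate, all slopes with rational values between `0` and `a` that are symmetric in this way
occur for abelian varieties over finite fields. The case `M = 1`, `κ = a` is the case of ordinary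
abelian varieties; the assumption on `M` says that `a / 2` is not a slope. Slopes are rational, so
integral weights `M` are no restriction.

There are `2 ^ (∑ i, g i)` families of CM types `Φ i` of the fields `K i`. A family is exceptional
(`exceptionalFamilies ν K M`) if the following statement (`Holds`) is false for it. Let `π i` be Weil
numbers for `q = p ^ a` that generate the fields `K i` and have the slope types `Φ i`, `M i`, and let
`f i` be monic polynomials whose complex roots are conjugates of `π i` (`IsPolyOf`), for instance the
characteristic polynomials of Frobenius of the abelian varieties in the isogeny classes of the `π i`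
over the field with `q` elements. Let `A` be an abelian variety over the field with `Q = q ^ s`
elements which is isogenous to a product of powers of abelian varieties coming from the field with
`q` elements, with characteristic polynomials `f i`, and let `X` be
**any** smooth variety over the field with `Q` elements, not necessarily proper, such that the
eigenvalues of Frobenius on the groups `H^(2 c)(X)` (that is, of the Frobenius endomorphism of `X` on
the groups `H^(2 c)(A × X)`) are roots of rational polynomials all of whose complex roots are unrelated
to the fields `K i`.

A complex number `ρ ≠ 0` is unrelated to the fields `K i` (`Unrelated`) if a function `n` on the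
complex embeddings of `K i` with `n (conj φ) = - n φ` which is invariant under all automorphisms of
`ℂ` that fix a power of `ρ` is zero. This is so if for each embedding `ψ` of `K i` some automorphism
which fixes a power of `ρ` is the complex conjugation on `ψ (K i)`: for instance, if a power of `ρ`
lies in a field linearly disjoint from the normal closures of the `K i`, or in a totally real field.
It is also so if the degree of `ρ` is less than twice the dimension of each nonzero space of
functions `n` stable under all automorphisms of `ℂ` (less than `2 g i` if this representation is
irreducible, as it is for generic CM fields).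

Then for every `c` **the eigenvalue `1` of Frobenius on `H^(2 c)(A × X, ℚ_ℓ(c))` is semisimple if and
only if this is true for `H^(2 (c - k))(X, ℚ_ℓ(c - k))` for `0 ≤ k ≤ dim A`** (Q2 for `A × X` and `X`).
Suppose moreover that the Frobenius endomorphism of `X` satisfies such polynomials on the Chow groups
`CH^c(A × X)`; this is true for instance if `X` is smooth projective with a finite-dimensional motive
(in the sense of Kimura and O'Sullivan), and for the varieties obtained from these by localization.
Then **`B^c(A × X)` holds if and only if `B^(c - k)(X)` holds for `0 ≤ k ≤ dim A`**: the cycle class map
is a bijection onto the Frobenius invariants, and the eigenvalue `1` is semisimple. The starting file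
`AbelianTimesSmooth` is about the surjectivity for almost all abelian varieties over the fields with
`q` elements, `q → ∞`; the starting file `AlmostAllSlopeTypes` is about the varieties generated by
abelian varieties.

The framework: the Chow ring and the ring of correspondences of `A`, with rational coefficients, and
the cohomology of `A`, with the formal properties and the theorems of Tate on divisors and of Kimura
on the nilpotence of homologically trivial correspondences (`AbelianData`, `IsAbelian`); and theories
relative to `X` (`RelData`, `IsRel`): the groups `H^i(X, j)` and `H^i(A × X, j)`, with the products
with classes on `A`, the push-forward from `A × X` to `X`, the operation of the correspondences from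
`A` to `A` on `H^i(A × X, j)` and the Frobenius endomorphism of `X`. This is the framework of the
starting file `AlmostAllAbelianFactors` (MP_81b968_ag).

The theorem bounds the number of the exceptional families: it is at most
`2 ^ (∑ i, g i) * ∑ i, C * (n i) ^ 2 * rate (K i) (g i) (q i)`, with an absolute constant `C`. Here
`q i` is any prime factor of `g i` (or `q i = 1`), and `rate K g q` is `(1 + log (2 g)) ^ 16` times
the smaller of the numbers `W (K) / √g` and `√g / q`; the second part of the theorem
(`WeightEstimate`) is `W (K) ≤ N ^ 2 * D ^ (1 / 4)`, where `N` is the number of the CM subfields of `K`
(with `K`) and `D` is the largest degree of a CM subfield of `K` that is normal over `ℚ` with a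
nonabelian Galois group (`D = 1` if there are none). So the exceptional types are a proportion
`O (n ^ 2 * g ^ (-1 / 4) * (log g) ^ 16)` of all types of all CM fields with a bounded number of CM
subfields. The number `W (K)` (`subfieldWeight K`) is the sum over the fields of definition `F` of the
isotypic components of the space of the odd functions on the complex embeddings of `K` of the number
of the CM subfields of `F`, multiplied by `[F : ℚ] ^ (1 / 4)` if `F` is normal over `ℚ` and its Galois
group is not abelian.

The proof. The bound for the number of the degenerate types is the one of the starting files
(`AllCMFields`, MP_e12fcd_ag, and `Y1.CT.ncard_of_unrel`): if the types are not degenerate, then a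
product of `ρ` and of some eigenvalues of `A`, no two of them complex conjugate, is not a power of `q`,
up to a root of unity, for all unrelated `ρ`.
If a Weil number `α` of the cohomology of `A` and a root `ρ` of the polynomial of the Frobenius
endomorphism `φ` of `X` have the product `Q ^ c`, then `α` is a product of pairs of complex conjugate
numbers, so that the eigenvectors of the Frobenius endomorphism `F` of `A` for `α` are products of
divisor classes. Let `p` be the projector given by dual systems `D t`, `E t` of products of divisor
classes on `A`. For a suitable polynomial `P` the correspondence `(1 - p) P (F)` is homologically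
trivial, hence nilpotent, and `P (F)` is invertible on the elements on which `F φ` acts as `Q ^ c`,
since there `F` satisfies the polynomial with the roots `Q ^ c / ρ`. So `p` acts there as the
identity. The same is true for the
generalized eigenvectors of `F φ` for `Q ^ c`: on them `F` satisfies a power of the polynomial with the
roots `Q ^ c / ρ`.
-/

set_option autoImplicit false

namespace Pool.Agent.Results.MP_81632f_ag.AllCMTypesTimes

open NumberField Module Pool.Agent.H204R3.CM Pool.Agent.H977R3.CM Pool.Agent.TH170
  Pool.Agent.Y1.KN Pool.Agent.Y1.CT Pool.Agent.V1168.UN

/-- The reduction of the semisimplicity and of `B^c` for `A × X` to the ones for `X` holds for all abelian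
varieties `A` whose Frobenius eigenvalues are powers of conjugates of Weil numbers with the slope
types `Φ i`, `M i`, and all `X` unrelated to the fields `K i`. -/
def Holds {p : ℕ} [Fact p.Prime] (ν : PadicAlgCl p ≃+* ℂ) {I : Type} (K : I → Type)
    [∀ i, Field (K i)] [∀ i, NumberField (K i)] [∀ i, IsCMField (K i)]
    (M : ∀ i, (K i →+* ℂ) → ℤ) (Φ : ∀ i, Set (K i →+* ℂ)) : Prop :=
  ForAllTypes ν K M (CycleMapSemisimpleTimes K) Φ

/-- The exceptional families of CM types. -/
def exceptionalFamilies {p : ℕ} [Fact p.Prime] (ν : PadicAlgCl p ≃+* ℂ) {I : Type} (K : I → Type)
    [∀ i, Field (K i)] [∀ i, NumberField (K i)] [∀ i, IsCMField (K i)]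
    (M : ∀ i, (K i →+* ℂ) → ℤ) : Set (∀ i, Set (K i →+* ℂ)) :=
  {Φ | (∀ i, IsCMType (Φ i)) ∧ ¬ Holds ν K M Φ}

/-- **`B^c(A × X)` is equivalent to `B^(c - k)(X)` for `0 ≤ k ≤ dim A`, for the abelian varieties `A` of
almost all slope types of all CM fields and all unrelated `X`.** -/
theorem result :
    (∃ C : ℝ, 0 ≤ C ∧ ∀ (p : ℕ) [Fact p.Prime] (ν : PadicAlgCl p ≃+* ℂ) (I : Type) [Fintype I]
      (K : I → Type) [∀ i, Field (K i)] [∀ i, NumberField (K i)] [∀ i, IsCMField (K i)]
      (M : ∀ i, (K i →+* ℂ) → ℤ) (n g q : I → ℕ), PairwiseIndep K →
      (∀ i φ, M i (ComplexEmbedding.conjugate φ) = M i φ) → (∀ i, n i ≠ 0) →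
      (∀ i φ, M i φ ∣ (n i : ℤ)) → (∀ i, finrank ℚ (K i) = 2 * g i) →
      (∀ i, q i ∣ g i ∧ (q i = 1 ∨ (q i).Prime)) →
      ((exceptionalFamilies ν K M).ncard : ℝ) ≤
        2 ^ (∑ i, g i) * ∑ i, C * (n i : ℝ) ^ 2 * rate (K i) (g i) (q i)) ∧
    WeightEstimate := by
  obtain ⟨C, hC0, hC⟩ := ncard_of_unrel
  refine ⟨⟨C, hC0, ?_⟩, weight_estimate_holds⟩
  intro p _ ν I _ K _ _ _ M n g q hind hM hn hMn hg hq
  exact hC p ν I K M n g q hind hM hn hMn hg hq _ fun Q f hQ hR => cycleMapSemisimpleTimes hQ hR

end Pool.Agent.Results.MP_81632f_ag.AllCMTypesTimes
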