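import Pool.Agent.V11106.SH.Semi

/-!
# Surjectivity of the cycle map and semisimplicity up to small errors

Let `W` be a Weil cohomology theory (coefficients `K`) on a class of varieties closed under
products, with a Frobenius endomorphism of all cohomology algebras, compatible with pull-backs,
which acts on the classes of cycles of codimension `j` by `q ^ j`. Assume that the class contains,
for every `N`, a surface with algebraic cohomology and `N` independent divisor classes (a successive
blow-up of the projective plane in rational points). Let `a_r ≤ t_r ≤ m_r` be the dimensions of the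
span of the classes of cycles in `H^(2 r)(X)`, of the eigenspace and of the generalized eigenspace of
the eigenvalue `q ^ r`.

**Fixed dimension.** Each of the equalities `a_r = t_r` (surjectivity of the cycle map onto the
Galois invariants), `t_r = m_r` (semisimplicity) and `a_r = m_r` (both) for all varieties of
dimension `n` follows from the same equality for `r + 1` in dimension `n + 2` up to an error `o(b)`,
where `b` is the Betti number.

**All dimensions.** Hence each of them, for all varieties and all `r`, is equivalent to the same
equality up to an error `o(b)`.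
-/

open CategoryTheory AlgebraicGeometry

universe u v

namespace Pool.Agent.Results.MP_81632f_ag.SublinearDefects

open Pool.Agent.H914 VarClass Obj WeilCohomology Pool.Agent.V11106.LB Pool.Agent.V11106.SH

variable {k : Type u} [Field k] {𝒱 : VarClass k} {ops : CycleOps 𝒱}

/-- The three implications from dimension `n + 2` to dimension `n`. -/
def FromTwoHigher {W : WeilCohomology.{u, v} ops} (G : GaloisLike W Unit) (n r : ℕ) : Prop :=
  (ShareUpToSublinear G 1 (n + 2) (r + 1) → TateIn G n r) ∧
  (MultiplicityUpToSublinear G (fun X => tateDim G X (r + 1)) (n + 2) (r + 1) →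
    EigenvalueSemisimple G n r) ∧
  (MultiplicityUpToSublinear G (fun X => algDim W X (r + 1)) (n + 2) (r + 1) →
    TateAndSemisimple G n r)

/-- The three equivalences. -/
def InAllDimensions {W : WeilCohomology.{u, v} ops} (G : GaloisLike W Unit) : Prop :=
  ((∀ n r : ℕ, TateIn G n r) ↔ ∀ n r : ℕ, ShareUpToSublinear G 1 n r) ∧
  ((∀ n r : ℕ, EigenvalueSemisimple G n r) ↔
    ∀ n r : ℕ, MultiplicityUpToSublinear G (fun X => tateDim G X r) n r) ∧
  ((∀ n r : ℕ, TateAndSemisimple G n r) ↔
    ∀ n r : ℕ, MultiplicityUpToSublinear G (fun X => algDim W X r) n r)

theorem result (W : WeilCohomology.{u, v} ops) (hT : HasRationalSurfaces W)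
    (G : GaloisLike W Unit) : (∀ n r : ℕ, FromTwoHigher G n r) ∧ InAllDimensions G :=
  ⟨fun n r => ⟨(tate_main hT G).1 n r, (eigenvalueSemisimple_main hT G).1 n r,
    (tateAndSemisimple_main hT G).1 n r⟩,
    (tate_main hT G).2.1.out 0 2, (eigenvalueSemisimple_main hT G).2.out 0 2,
    (tateAndSemisimple_main hT G).2.out 0 2⟩

end Pool.Agent.Results.MP_81632f_ag.SublinearDefects
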